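import Pool.Agent.P.MP_d44d58_nt.Link

/-! Exactly twelve NRS-matrices `M(m,n)` are not reduced. -/

open Pool.Agent.P.MP_d44d58_nt

namespace Pool.Agent.Results.MP_d44d58_nt.Twelve

theorem result :
    Set.ncard {p : ℤ × ℤ | IsNRS (M p.1 p.2) ∧ ¬IsReduced (M p.1 p.2)} = 12 := by
  rw [set_eq, Set.ncard_coe_finset]
  decide

end Pool.Agent.Results.MP_d44d58_nt.Twelve
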